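import Pool.Agent.Q12.MI2.Stm

set_option autoImplicit false
set_option linter.unusedSectionVars false

namespace Pool.Agent.Q96.MI2

open Finset Q12.MI2

universe u

section

variable {K V W V₀ : Type*} [Field K] [AddCommGroup V] [Fintype V] [AddCommGroup W]
  [AddCommGroup V₀]

theorem lam_eq_zero {β : V →+ V →+ W} {v x : V} : lam K β v x = 0 ↔ β v x = 0 := by
  unfold lam
  split_ifs with h
  · simp [h]
  · simp [h]

theorem lam_of_ne {β : V →+ V →+ W} {v x : V} (h : β v x ≠ 0) : lam K β v x = 1 := by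
  unfold lam
  rw [if_neg h]

theorem lam_of_eq {β : V →+ V →+ W} {v x : V} (h : β v x = 0) : lam K β v x = 0 := by
  unfold lam
  rw [if_pos h]

theorem lam_cases (β : V →+ V →+ W) (v x : V) : lam K β v x = 0 ∨ lam K β v x = 1 := by
  unfold lam
  split_ifs with h
  · exact Or.inl rfl
  · exact Or.inr rfl

variable [CharP K 2] (T : Tor K V W V₀)

theorem q_zero : T.q 0 = 0 := by
  have h := T.hq 0 0
  rw [add_zero, map_zero, map_zero, add_zero, T.hW] at h
  exact h

theorem alt' (x : V) : T.β x x = 0 := by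
  obtain ⟨a, rfl⟩ := T.hp x
  have h := T.hq a a
  rw [T.hV₀, q_zero, T.hW, zero_add] at h
  exact h.symm

theorem sym' (x y : V) : T.β x y = T.β y x := by
  obtain ⟨a, rfl⟩ := T.hp x
  obtain ⟨b, rfl⟩ := T.hp y
  have h1 := T.hq a b
  have h2 := T.hq b a
  rw [add_comm b a, h1, add_comm (T.q b) (T.q a)] at h2
  exact add_left_cancel h2

theorem lamadd' {v : V} {c : W} (h : T.Val c v) (x y : V) :
    lam K T.β v (x + y) = lam K T.β v x + lam K T.β v y := by
  have hxy : T.β v (x + y) = T.β v x + T.β v y := map_add _ _ _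
  by_cases hx : T.β v x = 0
  · rw [lam_of_eq (K := K) hx, zero_add]
    rw [hx, zero_add] at hxy
    unfold lam
    rw [hxy]
  · by_cases hy : T.β v y = 0
    · rw [lam_of_eq (K := K) hy, add_zero]
      rw [hy, add_zero] at hxy
      unfold lam
      rw [hxy]
    · rw [lam_of_ne (K := K) hx, lam_of_ne (K := K) hy, CharTwo.add_self_eq_zero]
      apply lam_of_eq
      rw [hxy, (h x).resolve_left hx, (h y).resolve_left hy, T.hW]

theorem val' {v : V} (h : Bad T.β v) : ∃ c, c ≠ 0 ∧ T.Val c v := by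
  obtain ⟨h0, c, hc⟩ := h
  refine ⟨c, ?_, hc⟩
  rintro rfl
  exact h0 (T.nondeg v fun x => (hc x).elim id id)

theorem exne {v : V} (h : v ≠ 0) : ∃ x, T.β v x ≠ 0 := by
  by_contra hh
  push Not at hh
  exact h (T.nondeg v hh)

theorem valuniq' {v : V} {c c' : W} (h : v ≠ 0) (hc : T.Val c v) (hc' : T.Val c' v) : c = c' := by
  obtain ⟨x, hx⟩ := exne T h
  rw [← (hc x).resolve_left hx, ← (hc' x).resolve_left hx]

theorem yadd' {c : W} {v v' : V} (h : T.Val c v) (h' : T.Val c v') : T.Val c (v + v') := by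
  intro x
  have hx : T.β (v + v') x = T.β v x + T.β v' x := by rw [map_add]; rfl
  rw [hx]
  rcases h x with h1 | h1 <;> rcases h' x with h2 | h2 <;> rw [h1, h2]
  · left; exact add_zero 0
  · right; exact zero_add c
  · right; exact add_zero c
  · left; exact T.hW c

theorem lamadd2 {c : W} {v v' : V} (h : T.Val c v) (h' : T.Val c v') (x : V) :
    lam K T.β (v + v') x = lam K T.β v x + lam K T.β v' x := by
  have hx : T.β (v + v') x = T.β v x + T.β v' x := by rw [map_add]; rfl
  by_cases h1 : T.β v x = 0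
  · rw [lam_of_eq (K := K) h1, zero_add]
    rw [h1, zero_add] at hx
    unfold lam
    rw [hx]
  · by_cases h2 : T.β v' x = 0
    · rw [lam_of_eq (K := K) h2, add_zero]
      rw [h2, add_zero] at hx
      unfold lam
      rw [hx]
    · rw [lam_of_ne (K := K) h1, lam_of_ne (K := K) h2, CharTwo.add_self_eq_zero]
      apply lam_of_eq
      rw [hx, (h x).resolve_left h1, (h' x).resolve_left h2, T.hW]

theorem laminj' {c : W} {v v' : V} (h : T.Val c v) (h' : T.Val c v')
    (hl : ∀ x, lam K T.β v x = lam K T.β v' x) : v = v' := by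
  have h0 : v - v' = 0 := by
    apply T.nondeg
    intro x
    have hx : T.β (v - v') x = T.β v x - T.β v' x := by rw [map_sub]; rfl
    rw [hx, sub_eq_zero]
    by_cases h1 : T.β v x = 0
    · have h2 : T.β v' x = 0 := by
        rw [← lam_eq_zero (K := K), ← hl x]
        exact lam_of_eq h1
      rw [h1, h2]
    · have h2 : T.β v' x ≠ 0 := by
        intro h2
        apply h1
        rw [← lam_eq_zero (K := K), hl x]
        exact lam_of_eq h2
      rw [(h x).resolve_left h1, (h' x).resolve_left h2]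
  exact sub_eq_zero.mp h0

theorem noncomm' {v v' : V} (h : Bad T.β v) (h' : Bad T.β v') (hn : T.β v v' ≠ 0) :
    T.Val (T.β v v') v ∧ T.Val (T.β v v') v' := by
  obtain ⟨c, -, hc⟩ := val' T h
  obtain ⟨c', -, hc'⟩ := val' T h'
  constructor
  · rw [(hc v').resolve_left hn]
    exact hc
  · rw [sym' T v v'] at hn ⊢
    rw [(hc' v).resolve_left hn]
    exact hc'

theorem huniq' {v v' : V} (h : T.HTy v) (h' : Bad T.β v')
    (hl : ∀ x, lam K T.β v' x = lam K T.β v x) : v' = v := by
  obtain ⟨hb, t, ht, hvt⟩ := h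
  have h1 : T.β v' t ≠ 0 := by
    intro h1
    apply hvt
    rw [← lam_eq_zero (K := K), ← hl t]
    exact lam_of_eq h1
  obtain ⟨h2, h3⟩ := noncomm' T hb ht hvt
  obtain ⟨h4, h5⟩ := noncomm' T h' ht h1
  rw [valuniq' T ht.1 h5 h3] at h4
  exact laminj' T h4 h2 hl

theorem polar' {v : V} {u : V →+ K} (h0 : v ≠ 0) (hu : T.μ v u ≠ 0) :
    ∃ φ : W →+ K, ∀ x y,
      φ (T.β x y) = lam K T.β v x * T.μ v u y + lam K T.β v y * T.μ v u x := by
  obtain ⟨hb, φ, hφ⟩ := T.hT v h0 u hu
  obtain ⟨c, -, hc⟩ := val' T hb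
  refine ⟨φ, fun x y => ?_⟩
  obtain ⟨a, rfl⟩ := T.hp x
  obtain ⟨b, rfl⟩ := T.hp y
  have h1 := hφ (a + b)
  rw [T.hq, map_add, map_add, hφ, hφ, map_add T.p, map_add, lamadd' T hc] at h1
  linear_combination h1

theorem comm' {v v' : V} {u : V →+ K} (h0 : v ≠ 0) (hb' : Bad T.β v') (hvv : T.β v v' = 0)
    (hu : T.μ v u v' ≠ 0) (x : V) : lam K T.β v' x = lam K T.β v x := by
  have hu0 : T.μ v u ≠ 0 := by
    intro h
    apply hu
    rw [h]
    rfl
  obtain ⟨φ, hφ⟩ := polar' T h0 hu0
  obtain ⟨c', hc0, hc'⟩ := val' T hb'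
  have h1 : ∀ y, φ (T.β v' y) = lam K T.β v y * T.μ v u v' := by
    intro y
    rw [hφ, lam_of_eq (K := K) hvv, zero_mul, zero_add]
  obtain ⟨y, hy⟩ := exne T h0
  have h2 : φ (T.β v' y) ≠ 0 := by
    rw [h1, lam_of_ne hy, one_mul]
    exact hu
  have h3 : T.β v' y ≠ 0 := by
    intro h
    rw [h, map_zero] at h2
    exact h2 rfl
  have h4 : φ c' ≠ 0 := by
    rw [← (hc' y).resolve_left h3]
    exact h2
  by_cases hx : T.β v x = 0
  · rw [lam_of_eq hx]
    apply lam_of_eq
    by_contra h5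
    have h6 := h1 x
    rw [(hc' x).resolve_left h5, lam_of_eq hx, zero_mul] at h6
    exact h4 h6
  · rw [lam_of_ne hx]
    apply lam_of_ne
    intro h5
    have h6 := h1 x
    rw [h5, map_zero, lam_of_ne hx, one_mul] at h6
    exact hu h6.symm

theorem plane' {v v' : V} {u : V →+ K} (hb : Bad T.β v) (hb' : Bad T.β v') (hn : T.β v v' ≠ 0)
    (x : V) : T.μ v u x = T.μ v u v * lam K T.β v' x + T.μ v u v' * lam K T.β v x := by
  by_cases hu : T.μ v u = 0
  · rw [hu]; simp
  obtain ⟨φ, hφ⟩ := polar' T hb.1 hu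
  obtain ⟨h1, h2⟩ := noncomm' T hb hb' hn
  have h3 : ∀ y, φ (T.β v' y) = φ (T.β v v') * lam K T.β v' y := by
    intro y
    by_cases hy : T.β v' y = 0
    · rw [hy, map_zero, lam_of_eq hy, mul_zero]
    · rw [lam_of_ne hy, mul_one, (h2 y).resolve_left hy]
  have h4 : φ (T.β v v') = T.μ v u v := by
    rw [hφ v v', lam_of_eq (alt' T v), lam_of_ne hn]
    ring
  have h5 := h3 x
  rw [hφ, h4, lam_of_ne hn, one_mul] at h5
  rw [← h5, mul_comm (T.μ v u v') _]
  have h6 : lam K T.β v x * T.μ v u v' + lam K T.β v x * T.μ v u v' = 0 :=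
    CharTwo.add_self_eq_zero _
  linear_combination -h6

end

/-- job BAD -/
theorem bad : S_BAD.{u} := by
  intro K _ _ V W V₀ _ _ _ _ T
  exact
  { sym := sym' T
    alt := alt' T
    ladd := by
      intro v hv x y
      obtain ⟨c, -, hc⟩ := val' T hv
      exact lamadd' T hc x y
    val := fun v hv => val' T hv
    valuniq := fun v c c' h0 hc hc' => valuniq' T h0 hc hc'
    yadd := fun c v v' h h' => yadd' T h h'
    lamadd := fun c v v' h h' x => lamadd2 T h h' x
    laminj := fun c v v' h h' hl => laminj' T h h' hl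
    noncomm := fun v v' h h' hn => noncomm' T h h' hn
    huniq := fun v v' h h' hl => huniq' T h h' hl
    polar := fun v u h0 hu => polar' T h0 hu
    comm := fun v v' u h0 hb' hvv hu x => comm' T h0 hb' hvv hu x
    plane := fun v v' u hb hb' hn x => plane' T hb hb' hn x }

end Pool.Agent.Q96.MI2
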