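import Pool.Agent.Q12.MI2.Stm3

set_option autoImplicit false
set_option linter.unusedSectionVars false

namespace Pool.Agent.Q96.MI2

open Finset Q12.MI2 Q21.MI

universe u v w w'

/-- twisting a group basis to the given augmentation -/
theorem exists_twist {K : Type*} {A : Type*} {G : Type*} {H : Type*} [Field K] [Ring A]
    [Algebra K A] [Group G] [Group H] (B : GBasis K A G) (C : GBasis K A H) :
    ∃ C' : GBasis K A H, B.aug = C'.aug := by
  let χ : H →* Kˣ := (MonoidHom.toHomUnits ((B.aug : A →* K).comp C.hom))⁻¹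
  refine ⟨C.twist χ, ?_⟩
  have hχ : ∀ h, B.aug ((C.twist χ).b h) = 1 := by
    intro h
    rw [C.twist_b, map_smul]
    simp only [χ, MonoidHom.inv_apply, smul_eq_mul]
    have h1 : ((MonoidHom.toHomUnits ((B.aug : A →* K).comp C.hom) h : Kˣ) : K)
        = B.aug (C.b h) := by simp
    rw [← h1, Units.inv_mul]
  have key : B.aug.toLinearMap = (C.twist χ).aug.toLinearMap := by
    refine (C.twist χ).b.ext fun h => ?_
    simp [hχ]
  exact AlgHom.toLinearMap_injective key

/-- job FIN -/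
theorem fin : S_MN.{u, max u w, w, w'} → S_A1.{w} → S_A6.{u, w} → S_A5.{u, u, w, w'} →
    S_FIN.{u, w, w'} := by
  intro hMN hA1 hA6 hA5 F _ _ G _ _ hD H _ he
  haveI : CharP (AlgebraicClosure F) 2 :=
    charP_of_injective_algebraMap (algebraMap F (AlgebraicClosure F)).injective 2
  obtain ⟨h1, h2⟩ := hA6 F G hD
  obtain ⟨n₁, n₂, m, ⟨c⟩⟩ := hA1 G h1 h2
  obtain ⟨e⟩ := hA5 F (AlgebraicClosure F) G H he
  obtain ⟨C, hC⟩ := exists_twist (GBasis.std (AlgebraicClosure F) G)
    ((GBasis.std (AlgebraicClosure F) H).map e.symm)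
  exact hMN (AlgebraicClosure F) (MonoidAlgebra (AlgebraicClosure F) G) G H (Fin n₁) (Fin n₂)
    (Fin m) (GBasis.std (AlgebraicClosure F) G) C c hC

end Pool.Agent.Q96.MI2
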