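import Pool.Agent.Q96.MI2.Stq

set_option autoImplicit false
set_option linter.unusedSectionVars false

namespace Pool.Agent.Q96.MI2

open Finset Q12.MI2 Q21.MI

universe u v w w'

section

variable {K : Type u} [Field K] [CharP K 2] {A : Type v} [Ring A] [Algebra K A]
  {G : Type w} [Group G] [Fintype G] {H : Type w'} [Group H] {ι₁ ι₂ κ : Type}
  [Fintype ι₁] [DecidableEq ι₁] [Fintype ι₂] [DecidableEq ι₂] [Fintype κ] [DecidableEq κ]
  (B : GBasis K A G) (C : GBasis K A H) (c : Coord G ι₁ ι₂ κ)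

theorem x1_surj (c : Coord G ι₁ ι₂ κ) : Function.Surjective (x1 c) := by
  intro x
  obtain ⟨g, hg⟩ := c.bij.2 (Sum.elim x 0, 0)
  refine ⟨g, ?_⟩
  funext i
  have h := congrFun (congrArg Prod.fst hg) (Sum.inl i)
  exact h

theorem x1_mul (c : Coord G ι₁ ι₂ κ) (g h : G) : x1 c (g * h) = x1 c g + x1 c h := by
  funext i
  exact congrFun (c.ξ_mul g h) (Sum.inl i)

theorem x1_one (c : Coord G ι₁ ι₂ κ) : x1 c 1 = 0 := by
  have h := x1_mul c 1 1
  rw [mul_one] at h
  exact left_eq_add.mp h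

theorem x1_inv (c : Coord G ι₁ ι₂ κ) (g : G) : x1 c g⁻¹ = x1 c g := by
  have h := x1_mul c g g⁻¹
  rw [mul_inv_cancel, x1_one] at h
  have h2 : x1 c g + x1 c g = 0 := by
    funext i
    exact CharTwo.add_self_eq_zero _
  rw [← h2] at h
  exact (add_left_cancel h).symm

theorem Xl_b (g : G) : Xl B c (B.b g) = cst K (c.ξ g) := Module.Basis.constr_basis _ _ _ _

/-- `su` is additive on `H` -/
theorem su_mul (hXM : S_XM.{u, v, w}) (haug : B.aug = C.aug) (u : (ι₁ → ZMod 2) →+ K) (h k : H) :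
    su B C c u (h * k) = su B C c u h + su B C c u k := by
  unfold su
  have h1 := (hXM K A G ι₁ ι₂ κ B c (C.b h) (C.b k)).1
  rw [← C.mul, haug, C.aug_b, C.aug_b, one_smul, one_smul] at h1
  rw [h1, ← Finset.sum_add_distrib]
  refine Finset.sum_congr rfl fun i _ => ?_
  rw [Pi.add_apply]
  ring

theorem su_add (u u' : (ι₁ → ZMod 2) →+ K) (h : H) :
    su B C c (u + u') h = su B C c u h + su B C c u' h := by
  unfold su
  rw [← Finset.sum_add_distrib]
  refine Finset.sum_congr rfl fun i _ => ?_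
  rw [AddMonoidHom.add_apply, add_mul]

theorem su_smul (k : K) (u : (ι₁ → ZMod 2) →+ K) (h : H) :
    su B C c (k • u) h = k * su B C c u h := by
  unfold su
  rw [Finset.mul_sum]
  refine Finset.sum_congr rfl fun i _ => ?_
  rw [AddMonoidHom.smul_apply, smul_eq_mul, mul_assoc]

theorem tor_add (u u' : (ι₁ → ZMod 2) →+ K) :
    C.tor (su B C c (u + u')) = C.tor (su B C c u) + C.tor (su B C c u') := by
  refine C.b.ext fun h => ?_
  rw [LinearMap.add_apply, C.tor_b, C.tor_b, C.tor_b, su_add, add_smul]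

theorem tor_smul (k : K) (u : (ι₁ → ZMod 2) →+ K) :
    C.tor (su B C c (k • u)) = k • C.tor (su B C c u) := by
  refine C.b.ext fun h => ?_
  rw [LinearMap.smul_apply, C.tor_b, C.tor_b, su_smul, mul_smul]

/-- the components -/
noncomputable def Fc (v : ι₁ → ZMod 2) (u : (ι₁ → ZMod 2) →+ K) (g : G) : K :=
  pr B c (B.dl (C.tor (su B C c u)) g) v

theorem Fc_addu (hPR : S_PR.{u, v, w}) (v : ι₁ → ZMod 2) (u u' : (ι₁ → ZMod 2) →+ K) (g : G) :
    Fc B C c v (u + u') g = Fc B C c v u g + Fc B C c v u' g := by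
  unfold Fc GBasis.dl
  rw [tor_add, LinearMap.add_apply, add_mul]
  exact congrFun ((hPR K A G ι₁ ι₂ κ B c).2.2.2.2.1 _ _) v

theorem Fc_smulu (hPR : S_PR.{u, v, w}) (v : ι₁ → ZMod 2) (k : K) (u : (ι₁ → ZMod 2) →+ K) (g : G) :
    Fc B C c v (k • u) g = k * Fc B C c v u g := by
  unfold Fc GBasis.dl
  rw [tor_smul, LinearMap.smul_apply, smul_mul_assoc]
  exact congrFun ((hPR K A G ι₁ ι₂ κ B c).2.2.2.2.2 _ _) v

theorem Fc_mul (hXM : S_XM.{u, v, w}) (hPR : S_PR.{u, v, w}) (haug : B.aug = C.aug)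
    (v : ι₁ → ZMod 2) (u : (ι₁ → ZMod 2) →+ K) (g h : G) :
    Fc B C c v u (g * h) = Fc B C c v u g + Fc B C c v u h := by
  unfold Fc
  rw [B.dl_mul (C.isDer_tor _ (su_mul B C c hXM haug u))]
  have h1 := (hPR K A G ι₁ ι₂ κ B c).2.2.2.2.1 (B.dl (C.tor (su B C c u)) g)
    (B.b g * B.dl (C.tor (su B C c u)) h * B.b g⁻¹)
  have h2 := (hPR K A G ι₁ ι₂ κ B c).2.2.2.1 (B.dl (C.tor (su B C c u)) h) (B.b g) (B.b g⁻¹)
    (B.mul_inv g)
  rw [h1, h2, Pi.add_apply]

theorem Fc_central (hPR : S_PR.{u, v, w}) (hZV : S_ZV.{u, v, w, w'}) (haug : B.aug = C.aug)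
    (v : ι₁ → ZMod 2) (u : (ι₁ → ZMod 2) →+ K) (z : G) (hz : z ∈ Subgroup.center G) :
    Fc B C c v u z = 0 := by
  unfold Fc GBasis.dl
  rw [(hPR K A G ι₁ ι₂ κ B c).1]
  refine Finset.sum_eq_zero fun y _ => ?_
  rw [hZV K A G H ι₁ ι₂ κ B C c haug u z hz y, zero_mul]

theorem Fc_congr (hXM : S_XM.{u, v, w}) (hPR : S_PR.{u, v, w}) (hZV : S_ZV.{u, v, w, w'})
    (haug : B.aug = C.aug) (v : ι₁ → ZMod 2) (u : (ι₁ → ZMod 2) →+ K) (g h : G)
    (hgh : x1 c g = x1 c h) : Fc B C c v u g = Fc B C c v u h := by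
  have hz : g⁻¹ * h ∈ Subgroup.center G := by
    rw [c.center]
    intro i
    have h1 : x1 c (g⁻¹ * h) = 0 := by
      rw [x1_mul, x1_inv, hgh]
      funext i
      exact CharTwo.add_self_eq_zero _
    exact congrFun h1 i
  have h2 : h = g * (g⁻¹ * h) := by group
  rw [h2, Fc_mul B C c hXM hPR haug, Fc_central B C c hPR hZV haug v u _ hz, add_zero]

/-- the additive function -/
noncomputable def Fa (hXM : S_XM.{u, v, w}) (hPR : S_PR.{u, v, w}) (hZV : S_ZV.{u, v, w, w'})
    (haug : B.aug = C.aug) (v : ι₁ → ZMod 2) (u : (ι₁ → ZMod 2) →+ K) : (ι₁ → ZMod 2) →+ K where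
  toFun x := Fc B C c v u (Function.surjInv (x1_surj c) x)
  map_zero' := by
    have h := Fc_congr B C c hXM hPR hZV haug v u (Function.surjInv (x1_surj c) 0) 1
      (by rw [Function.surjInv_eq (x1_surj c), x1_one])
    rw [h]
    exact Fc_central B C c hPR hZV haug v u 1 (Subgroup.one_mem _)
  map_add' x y := by
    rw [← Fc_mul B C c hXM hPR haug]
    apply Fc_congr B C c hXM hPR hZV haug v u
    rw [x1_mul, Function.surjInv_eq (x1_surj c), Function.surjInv_eq (x1_surj c),
      Function.surjInv_eq (x1_surj c)]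

theorem Fa_x1 (hXM : S_XM.{u, v, w}) (hPR : S_PR.{u, v, w}) (hZV : S_ZV.{u, v, w, w'})
    (haug : B.aug = C.aug) (v : ι₁ → ZMod 2) (u : (ι₁ → ZMod 2) →+ K) (g : G) :
    Fa B C c hXM hPR hZV haug v u (x1 c g) = Fc B C c v u g := by
  apply Fc_congr B C c hXM hPR hZV haug v u
  rw [Function.surjInv_eq (x1_surj c)]

end

/-- job MU -/
theorem mu : S_XM.{u, v, w} → S_PR.{u, v, w} → S_ZV.{u, v, w, w'} → S_MU.{u, v, w, w'} := by
  intro hXM hPR hZV K _ _ A _ _ G _ _ H _ ι₁ ι₂ κ _ _ _ _ _ _ B C c haug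
  refine ⟨fun v =>
    { toFun := fun u => Fa B C c hXM hPR hZV haug v u
      map_add' := ?_
      map_smul' := ?_ }, ?_⟩
  · intro u u'
    refine DFunLike.ext _ _ fun x => ?_
    obtain ⟨g, rfl⟩ := x1_surj c x
    rw [AddMonoidHom.add_apply, Fa_x1, Fa_x1, Fa_x1, Fc_addu B C c hPR]
  · intro k u
    refine DFunLike.ext _ _ fun x => ?_
    obtain ⟨g, rfl⟩ := x1_surj c x
    rw [AddMonoidHom.smul_apply, Fa_x1, Fa_x1, Fc_smulu B C c hPR]
    rfl
  · intro v u g
    exact Fa_x1 B C c hXM hPR hZV haug v u g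

/-- job DB -/
theorem db : S_XM.{u, v, w} → S_PR.{u, v, w} → S_DB.{u, v, w, w'} := by
  intro hXM hPR K _ _ A _ _ G _ _ H _ ι₁ ι₂ κ _ _ _ _ _ _ B C c haug μ hμ
  obtain ⟨p1, p2, p3, p4, p5, p6⟩ := hPR K A G ι₁ ι₂ κ B c
  constructor
  · intro u a
    induction B.b.mem_span a using Submodule.span_induction with
    | mem x hx =>
      obtain ⟨g, rfl⟩ := hx
      funext w
      rw [B.D_b, p1, Finset.sum_eq_single (w + x1 c g)]
      · change _ = ∑ x, pr B c (B.b g) x * μ (w + x) u x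
        rw [Finset.sum_eq_single (x1 c g)]
        · rw [p2, p2, if_pos rfl, one_mul, ← hμ]
          have h2 : w + (w + x1 c g) = x1 c g := by
            rw [← add_assoc]
            have h3 : w + w = 0 := by
              funext i
              exact CharTwo.add_self_eq_zero _
            rw [h3, zero_add]
          rw [h2, if_pos rfl, mul_one]
        · intro y _ hy
          rw [p2, if_neg (Ne.symm hy), zero_mul]
        · intro h; exact absurd (Finset.mem_univ _) h
      · intro y _ hy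
        rw [p2, if_neg, mul_zero]
        intro h
        apply hy
        rw [h, ← add_assoc]
        have h3 : w + w = 0 := by
          funext i
          exact CharTwo.add_self_eq_zero _
        rw [h3, zero_add]
      · intro h; exact absurd (Finset.mem_univ _) h
    | zero =>
      have h0 : pr B c (0 : A) = 0 := by
        have := p6 0 0
        rwa [zero_smul, zero_smul] at this
      rw [map_zero, h0, map_zero]
    | add x y _ _ hx hy => rw [map_add, p5, p5, map_add, hx, hy]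
    | smul k x _ hx => rw [map_smul, p6, p6, map_smul, hx]
  · intro u
    refine DFunLike.ext _ _ fun x => ?_
    obtain ⟨g, rfl⟩ := x1_surj c x
    rw [AddMonoidHom.finsetSum_apply, Finset.sum_congr rfl fun v _ => hμ v u g, p3]
    have key : ∀ a, C.aug (C.tor (su B C c u) a)
        = ∑ i : ι₁, u (Pi.single i 1) * Xl B c a (Sum.inl i) := by
      intro a
      induction C.b.mem_span a using Submodule.span_induction with
      | mem x hx =>
        obtain ⟨h, rfl⟩ := hx
        rw [C.tor_b, map_smul, C.aug_b, smul_eq_mul, mul_one]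
        rfl
      | zero => simp
      | add x y _ _ hx hy =>
        rw [map_add, map_add, hx, hy, ← Finset.sum_add_distrib]
        refine Finset.sum_congr rfl fun i _ => ?_
        rw [map_add, Pi.add_apply, mul_add]
      | smul k x _ hx =>
        rw [map_smul, map_smul, hx, smul_eq_mul, Finset.mul_sum]
        refine Finset.sum_congr rfl fun i _ => ?_
        rw [map_smul, Pi.smul_apply, smul_eq_mul]
        ring
    unfold GBasis.dl
    rw [map_mul, B.aug_b, mul_one, haug, key, Xl_b, add_expand u (x1 c g)]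
    rfl

end Pool.Agent.Q96.MI2
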