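import Pool.Agent.Q96.MI2.Bad

set_option autoImplicit false
set_option linter.unusedSectionVars false

namespace Pool.Agent.Q96.MI2

open Finset Q12.MI2

universe u

section

variable {K V W V₀ : Type*} [Field K] [AddCommGroup V] [Fintype V] [AddCommGroup W]
  [AddCommGroup V₀] [CharP K 2] (T : Tor K V W V₀)

include T in
theorem add_eq_zero_iff' (x y : V) : x + y = 0 ↔ x = y := by
  constructor
  · intro h
    have h2 := T.hV y
    rw [← h] at h2
    exact (add_right_cancel h2).symm
  · rintro rfl
    exact T.hV x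

include T in
theorem add_add_self (x y : V) : x + (x + y) = y := by
  rw [← add_assoc, T.hV, zero_add]

include T in
theorem add_add_self' (x y : V) : x + y + y = x := by
  rw [add_assoc, T.hV, add_zero]

/-- an additive `ρ : K → K` with values `0, 1` and `ρ a = 1` -/
theorem ex_rho {a : K} (ha : a ≠ 0) : ∃ ρ : K →+ K, ρ a = 1 ∧ ∀ x, ρ x = 0 ∨ ρ x = 1 := by
  letI : Algebra (ZMod 2) K := ZMod.algebra K 2
  have h : ¬ ∀ φ : Module.Dual (ZMod 2) K, φ a = 0 := by
    rw [Module.forall_dual_apply_eq_zero_iff]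
    exact ha
  push Not at h
  obtain ⟨φ, hφ⟩ := h
  have hz : ∀ z : ZMod 2, z = 0 ∨ z = 1 := by decide
  refine ⟨((ZMod.castHom (dvd_refl 2) K).toAddMonoidHom).comp φ.toAddMonoidHom, ?_, ?_⟩
  · have h1 : φ a = 1 := (hz _).resolve_left hφ
    simp [h1]
  · intro x
    rcases hz (φ x) with h1 | h1
    · left; simp [h1]
    · right; simp [h1]

end

/-- job PLN -/
theorem pln : S_PLN.{u} := by
  intro K _ _ V W V₀ _ _ _ _ T F c hs
  obtain ⟨v, ⟨hb, t, ht, hvt⟩, hcv, u, hu⟩ := hs
  have hu0 : T.μ v u ≠ 0 := by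
    intro h
    apply hu
    rw [h]; rfl
  obtain ⟨h1, h2⟩ := F.noncomm v t hb ht hvt
  have hc : T.β v t = c := F.valuniq v _ _ hb.1 h1 hcv
  rw [hc] at hvt h1 h2
  have hpl := F.plane v t u hb ht (by rw [hc]; exact hvt)
  have key : ∀ t', T.Val c t' → T.β v t' ≠ 0 → t + t' = 0 ∨ t + t' = v := by
    intro t' ht' hvt'
    by_cases h0 : t + t' = 0
    · exact Or.inl h0
    right
    have hb' : Bad T.β t' := by
      refine ⟨?_, c, ht'⟩
      rintro rfl
      rw [map_zero] at hvt'
      exact hvt' rfl
    have hpl' := F.plane v t' u hb hb' hvt'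
    have h3 : ∀ x, T.μ v u v * lam K T.β (t + t') x = (T.μ v u t + T.μ v u t') * lam K T.β v x := by
      intro x
      rw [F.lamadd c t t' h2 ht']
      have e1 := hpl x
      have e2 := hpl' x
      have e3 : T.μ v u x + T.μ v u x = 0 := CharTwo.add_self_eq_zero _
      have e4 : T.μ v u t * lam K T.β v x + T.μ v u t * lam K T.β v x = 0 :=
        CharTwo.add_self_eq_zero _
      have e5 : T.μ v u t' * lam K T.β v x + T.μ v u t' * lam K T.β v x = 0 :=
        CharTwo.add_self_eq_zero _
      linear_combination -e1 - e2 + e3 - e4 - e5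
    obtain ⟨x, hx⟩ := exne T h0
    have h4 := h3 x
    rw [lam_of_ne hx, mul_one] at h4
    have h5 : lam K T.β v x = 1 := by
      rcases lam_cases (K := K) T.β v x with h | h
      · rw [h, mul_zero] at h4
        exact absurd h4 hu
      · exact h
    rw [h5, mul_one] at h4
    apply F.laminj c _ _ (F.yadd c _ _ h2 ht') hcv
    intro y
    have h6 := h3 y
    rw [← h4] at h6
    exact mul_left_cancel₀ hu h6
  have hall : ∀ t', T.Val c t' → t' = 0 ∨ t' = v ∨ t' = t ∨ t' = v + t := by
    intro t' ht'
    by_cases h0 : T.β v t' = 0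
    · have h3 : T.β v (t + t') ≠ 0 := by
        rw [map_add, h0, add_zero, hc]
        exact hvt
      rcases key (t + t') (F.yadd c _ _ h2 ht') h3 with h | h
      · rw [add_add_self T] at h
        exact Or.inl h
      · rw [add_add_self T] at h
        exact Or.inr (Or.inl h)
    · rcases key t' ht' h0 with h | h
      · rw [add_eq_zero_iff' T] at h
        exact Or.inr (Or.inr (Or.inl h.symm))
      · right; right; right
        rw [← h, add_comm t t', add_add_self' T]
  obtain ⟨-, φ, hφ⟩ := T.hT v hb.1 u hu0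
  obtain ⟨ρ, hρ, hρ2⟩ := ex_rho (K := K) hu
  have hmul : ∀ (a : K) (x y : V), ρ (a * (lam K T.β v x * lam K T.β t y))
      = ρ a * (lam K T.β v x * lam K T.β t y) := by
    intro a x y
    rcases lam_cases (K := K) T.β v x with h | h <;>
    rcases lam_cases (K := K) T.β t y with h' | h' <;> simp [h, h']
  have hmul' : ∀ (a : K) (x : V), ρ (a * lam K T.β v x) = ρ a * lam K T.β v x := by
    intro a x
    rcases lam_cases (K := K) T.β v x with h | h <;> simp [h]
  have hsq : ∀ x, lam K T.β v x * lam K T.β v x = lam K T.β v x := by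
    intro x
    rcases lam_cases (K := K) T.β v x with h | h <;> simp [h]
  have hmain : ∀ x : V₀, ρ (φ (T.q x)) = lam K T.β v (T.p x) * lam K T.β t (T.p x)
      + ρ (T.μ v u t) * lam K T.β v (T.p x) := by
    intro x
    rw [hφ, hpl]
    have e : lam K T.β v (T.p x) * (T.μ v u v * lam K T.β t (T.p x)
        + T.μ v u t * lam K T.β v (T.p x)) = T.μ v u v * (lam K T.β v (T.p x) *
          lam K T.β t (T.p x)) + T.μ v u t * lam K T.β v (T.p x) := by
      linear_combination T.μ v u t * hsq (T.p x)
    rw [e, map_add, hmul, hmul', hρ, one_mul]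
  rcases hρ2 (T.μ v u t) with h | h
  · refine ⟨v, t, hvt, hc, hcv, h2, hall, ρ.comp φ, ?_⟩
    intro x
    have := hmain x
    rw [h, zero_mul, add_zero] at this
    exact this
  · refine ⟨v, v + t, hvt, ?_, hcv, F.yadd c _ _ hcv h2, ?_, ρ.comp φ, ?_⟩
    · rw [map_add, F.alt, zero_add, hc]
    · intro t' ht'
      rcases hall t' ht' with h | h | h | h
      · exact Or.inl h
      · exact Or.inr (Or.inl h)
      · right; right; right
        rw [add_add_self T]
        exact h
      · exact Or.inr (Or.inr (Or.inl h))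
    · intro x
      have := hmain x
      rw [h, one_mul] at this
      change (ρ.comp φ) (T.q x) = lam K T.β v (T.p x) * lam K T.β (v + t) (T.p x)
      rw [F.lamadd c v t hcv h2, mul_add, hsq, add_comm]
      exact this

end Pool.Agent.Q96.MI2
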