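import Pool.Agent.Q12.MI2.Stm3

set_option autoImplicit false
set_option linter.unusedSectionVars false

namespace Pool.Agent.Q96.MI2

open Finset Q12.MI2

universe u

section

variable {K : Type*} [Field K] [CharP K 2] {ι : Type*} [Fintype ι] [DecidableEq ι]

theorem cst_apply (x : ι → ZMod 2) (i : ι) : cst K x i = ZMod.castHom (dvd_refl 2) K (x i) := rfl

theorem single_val (a : (ι → ZMod 2) →+ K) (i : ι) (z : ZMod 2) :
    a (Pi.single i z) = a (Pi.single i 1) * ZMod.castHom (dvd_refl 2) K z := by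
  have hz : ∀ z : ZMod 2, z = 0 ∨ z = 1 := by decide
  rcases hz z with rfl | rfl
  · rw [map_zero, mul_zero, Pi.single_zero, map_zero]
  · rw [map_one, mul_one]

theorem add_expand (a : (ι → ZMod 2) →+ K) (x : ι → ZMod 2) :
    a x = ∑ i, a (Pi.single i 1) * cst K x i := by
  have h : x = ∑ i, Pi.single i (x i) := (Finset.univ_sum_single x).symm
  conv_lhs => rw [h]
  rw [map_sum]
  exact Finset.sum_congr rfl fun i _ => single_val a i (x i)

theorem crd_expand (a : (ι → ZMod 2) →+ K) : a = ∑ i, a (Pi.single i 1) • crd K i := by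
  refine DFunLike.ext _ _ fun x => ?_
  rw [AddMonoidHom.finsetSum_apply]
  exact add_expand a x

theorem mat_vec (N : Module.End K ((ι → ZMod 2) →+ K)) (a : (ι → ZMod 2) →+ K)
    (x : ι → ZMod 2) :
    ∑ i, a (Pi.single i 1) * (∑ j, mat N i j * cst K x j) = N a x := by
  rw [add_expand (N a) x]
  conv_rhs =>
    enter [2, j]
    rw [crd_expand a, map_sum, AddMonoidHom.finsetSum_apply]
  simp only [Finset.mul_sum, Finset.sum_mul, map_smul, AddMonoidHom.smul_apply, smul_eq_mul]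
  rw [Finset.sum_comm]
  refine Finset.sum_congr rfl fun j _ => Finset.sum_congr rfl fun i _ => ?_
  unfold mat
  ring

end

section

variable {K : Type*} [Field K] [CharP K 2] {ι₁ ι₂ κ : Type*} [Fintype ι₁]
  [DecidableEq ι₁] [Fintype ι₂] [DecidableEq ι₂] [Fintype κ] [DecidableEq κ]

/-- the linear extension of an additive function of the first coordinates -/
def lin (a : (ι₁ → ZMod 2) →+ K) : ι₁ ⊕ ι₂ → K := Sum.elim (fun i => a (Pi.single i 1)) 0

theorem lin_sum (a : (ι₁ → ZMod 2) →+ K) (y : ι₁ ⊕ ι₂ → K) :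
    ∑ i, lin a i * y i = ∑ i, a (Pi.single i 1) * y (Sum.inl i) := by
  rw [Fintype.sum_sum_type]
  unfold lin
  simp

theorem lin_cst (a : (ι₁ → ZMod 2) →+ K) (x : ι₁ ⊕ ι₂ → ZMod 2) :
    ∑ i, lin a i * cst K x i = a (fun i => x (Sum.inl i)) := by
  rw [lin_sum, add_expand]
  rfl

theorem lin_M (g : Module.End K ((ι₁ → ZMod 2) →+ K)) (Cc : Matrix ι₂ ι₁ K) (Dd : Matrix ι₂ ι₂ K)
    (a : (ι₁ → ZMod 2) →+ K) (x : ι₁ ⊕ ι₂ → ZMod 2) :
    ∑ i, lin a i * (Matrix.fromBlocks (mat g) 0 Cc Dd).mulVec (cst K x) i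
      = g a (fun i => x (Sum.inl i)) := by
  rw [lin_sum, ← mat_vec]
  refine Finset.sum_congr rfl fun i _ => ?_
  congr 1
  unfold Matrix.mulVec dotProduct
  rw [Fintype.sum_sum_type]
  simp only [Matrix.fromBlocks_apply₁₁, Matrix.fromBlocks_apply₁₂, Matrix.zero_apply, zero_mul,
    Finset.sum_const_zero, add_zero]
  rfl

/-- the matrix of a quadratic identity -/
def Dm (b : (ι₁ ⊕ ι₂) → (ι₁ ⊕ ι₂) → κ → ℤ) (φ : κ → K) (a a' c c' : (ι₁ → ZMod 2) →+ K) :
    Matrix (ι₁ ⊕ ι₂) (ι₁ ⊕ ι₂) K :=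
  fun i j => ∑ k, φ k * (b i j k : K) + (lin a i * lin a' j + lin c i * lin c' j)

theorem prod_sum (f h y : ι₁ ⊕ ι₂ → K) :
    (∑ i, f i * y i) * (∑ j, h j * y j) = ∑ i, ∑ j, (f i * h j) * y i * y j := by
  rw [Finset.sum_mul_sum]
  refine Finset.sum_congr rfl fun i _ => Finset.sum_congr rfl fun j _ => by ring

theorem Dm_sum (b : (ι₁ ⊕ ι₂) → (ι₁ ⊕ ι₂) → κ → ℤ) (φ : κ → K)
    (a a' c c' : (ι₁ → ZMod 2) →+ K) (y : ι₁ ⊕ ι₂ → K) :
    ∑ i, ∑ j, Dm b φ a a' c c' i j * y i * y j = ∑ k, φ k * qd b y k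
      + ((∑ i, lin a i * y i) * (∑ j, lin a' j * y j)
        + (∑ i, lin c i * y i) * (∑ j, lin c' j * y j)) := by
  rw [prod_sum, prod_sum]
  unfold Dm qd bil
  simp only [add_mul, Finset.sum_add_distrib]
  congr 1
  simp only [Finset.sum_mul, Finset.mul_sum]
  rw [Finset.sum_comm' (s := Finset.univ) (t := fun _ => Finset.univ) (t' := Finset.univ)
    (s' := fun _ => Finset.univ) (by simp)]
  rw [Finset.sum_comm]
  rw [Finset.sum_congr rfl fun i _ => Finset.sum_comm]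
  rw [Finset.sum_comm]
  refine Finset.sum_congr rfl fun k _ => Finset.sum_congr rfl fun i _ =>
    Finset.sum_congr rfl fun j _ => by ring

theorem qd_cst (b : (ι₁ ⊕ ι₂) → (ι₁ ⊕ ι₂) → κ → ℤ) (x : ι₁ ⊕ ι₂ → ZMod 2) :
    qd b (cst K x) = cst K (qd b x) := by
  funext k
  unfold qd bil cst
  simp only [map_sum, map_mul, map_intCast]

/-- the additive function with given values composed with a matrix -/
def phiC (φ : κ → K) (C : Matrix κ κ K) : (κ → ZMod 2) →+ K where
  toFun w := ∑ k, φ k * C.mulVec (cst K w) k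
  map_zero' := by
    have h : cst K (0 : κ → ZMod 2) = 0 := by
      funext i
      simp [cst]
    rw [h, Matrix.mulVec_zero]
    simp
  map_add' x y := by
    have h : cst K (x + y) = cst K x + cst K y := by
      funext i
      simp [cst]
    rw [h, Matrix.mulVec_add, ← Finset.sum_add_distrib]
    refine Finset.sum_congr rfl fun k _ => ?_
    rw [Pi.add_apply, mul_add]

end

/-- job STQ -/
theorem stq : S_QE.{u} → S_STQ.{u} := by
  intro hQE K _ _ ι₁ ι₂ κ _ _ _ _ _ _ b T hT g Cc Dd C₁ hM a a' c c' hQ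
  obtain ⟨φ, hφ⟩ := hQ
  have hp : ∀ x, T.p x = fun i => x (Sum.inl i) := fun x => funext fun i => hT.2 x i
  have h1 : ∀ x : ι₁ ⊕ ι₂ → ZMod 2, ∑ i, ∑ j,
      Dm b (fun k => φ (Pi.single k 1)) a a' c c' i j * cst K x i * cst K x j = 0 := by
    intro x
    rw [Dm_sum, lin_cst, lin_cst, lin_cst, lin_cst, qd_cst, ← add_expand, ← hT.1, hφ, ← hp]
    exact CharTwo.add_self_eq_zero _
  refine ⟨phiC (fun k => φ (Pi.single k 1)) C₁, fun x => ?_⟩
  have h2 := hQE K _ _ h1 K ((Matrix.fromBlocks (mat (1 + g)) 0 Cc Dd).mulVec (cst K x))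
  simp only [Algebra.algebraMap_self, RingHom.id_apply] at h2
  rw [Dm_sum, lin_M, lin_M, lin_M, lin_M, hM (cst K x), qd_cst, ← hT.1, ← hp] at h2
  change ∑ k, φ (Pi.single k 1) * C₁.mulVec (cst K (T.q x)) k = _
  have h3 : ∀ A B : K, A + B = 0 → A = B := by
    intro A B h
    have h4 : B + B = 0 := CharTwo.add_self_eq_zero _
    rw [← h] at h4
    exact (add_right_cancel h4).symm
  exact h3 _ _ h2

end Pool.Agent.Q96.MI2
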