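import Pool.Agent.Q96.MI2.Pln

set_option autoImplicit false
set_option linter.unusedSectionVars false

namespace Pool.Agent.Q96.MI2

open Finset Q12.MI2

universe u

section

variable {K V W V₀ : Type*} [Field K] [AddCommGroup V] [Fintype V] [AddCommGroup W]
  [AddCommGroup V₀] [CharP K 2] (T : Tor K V W V₀)

/-- the component at `w` of the expression of the set `I` -/
noncomputable def Sw (I : Finset V) (u u' : V →+ K) (w : V) : V →+ K :=
  ∑ v ∈ I, ((T.μ (w + v) u v) • T.μ v u' + (T.μ (w + v) u' v) • T.μ v u)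

theorem sum_shift (f : V → K) (v : V) : ∑ w, f (w + v) = ∑ w, f w :=
  Equiv.sum_comp (Equiv.addRight v) f

theorem expand (u : V →+ K) (v : V) : u v = ∑ w, T.μ (w + v) u v := by
  rw [sum_shift (fun w => T.μ w u v) v]
  conv_lhs => rw [← T.h1 u]
  rw [AddMonoidHom.finsetSum_apply]

theorem symOn_of (I : Finset V) (h : ∀ u u' w, w ≠ 0 → Sw T I u u' w = 0) : SymOn T I := by
  classical
  intro u u'
  obtain ⟨ϖ, hϖ0, hϖ⟩ := T.hϖ
  have h2 : ∀ f : V →+ K, f + f = 0 := by
    intro f
    ext x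
    exact CharTwo.add_self_eq_zero _
  have hS0 : ∀ x, Sw T I u u' 0 x = 0 := by
    intro x
    have hv : ∀ (u : V →+ K) (v : V), ∑ w, T.μ (w + v) u v * ϖ w = 0 := by
      intro u v
      have e := sum_shift (fun w => T.μ w u v * ϖ (w + v)) v
      rw [hϖ u v] at e
      rw [← e]
      refine Finset.sum_congr rfl fun w _ => ?_
      rw [add_add_self' T]
    have e1 : ∑ w, Sw T I u u' w x * ϖ w = 0 := by
      have e2 : ∀ w, Sw T I u u' w x * ϖ w = ∑ v ∈ I,
          ((T.μ (w + v) u v * ϖ w) * T.μ v u' x + (T.μ (w + v) u' v * ϖ w) * T.μ v u x) := by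
        intro w
        unfold Sw
        rw [AddMonoidHom.finsetSum_apply, Finset.sum_mul]
        refine Finset.sum_congr rfl fun v _ => ?_
        simp only [AddMonoidHom.add_apply, AddMonoidHom.smul_apply, smul_eq_mul]
        ring
      simp only [e2]
      rw [Finset.sum_comm]
      refine Finset.sum_eq_zero fun v _ => ?_
      rw [Finset.sum_add_distrib, ← Finset.sum_mul, ← Finset.sum_mul, hv, hv]
      simp
    rw [Finset.sum_eq_single 0] at e1
    · rwa [hϖ0, mul_one] at e1
    · intro w _ hw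
      rw [h u u' w hw]
      simp
    · intro h0
      exact absurd (Finset.mem_univ _) h0
  have hS : ∑ w, Sw T I u u' w = 0 := by
    refine Finset.sum_eq_zero fun w _ => ?_
    by_cases hw : w = 0
    · subst hw
      ext x
      exact hS0 x
    · exact h u u' w hw
  have hfin : ∑ v ∈ I, (u v • T.μ v u' + u' v • T.μ v u) = 0 := by
    rw [← hS]
    unfold Sw
    rw [Finset.sum_comm]
    refine Finset.sum_congr rfl fun v _ => ?_
    rw [Finset.sum_add_distrib, ← Finset.sum_smul, ← Finset.sum_smul, ← expand T, ← expand T]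
  rw [Finset.sum_add_distrib] at hfin
  have e := h2 (∑ v ∈ I, u' v • T.μ v u)
  rw [← hfin] at e
  exact (add_right_cancel e).symm

theorem Sw_in (I : Finset V) (w : V) (h : ∀ u u' v, v ∉ I → T.μ (w + v) u v ≠ 0 →
    T.μ v u' ≠ 0 → False) (u u' : V →+ K) : Sw T I u u' w = 0 := by
  classical
  unfold Sw
  rw [← T.hcomm u u' w]
  apply Finset.sum_subset (Finset.subset_univ _)
  intro v _ hv
  have hz : ∀ u u', (T.μ (w + v) u v) • T.μ v u' = 0 := by
    intro u u'
    by_cases h1 : T.μ (w + v) u v = 0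
    · rw [h1, zero_smul]
    · by_cases h2 : T.μ v u' = 0
      · rw [h2, smul_zero]
      · exact (h u u' v hv h1 h2).elim
  rw [hz, hz, add_zero]

theorem Sw_out (I : Finset V) (w : V) (h : ∀ u v, v ∈ I → T.μ (w + v) u v = 0) (u u' : V →+ K) :
    Sw T I u u' w = 0 := by
  unfold Sw
  refine Finset.sum_eq_zero fun v hv => ?_
  rw [h u v hv, h u' v hv, zero_smul, zero_smul, add_zero]

variable {T}
variable (F : BadFacts T)
include F

theorem bad_of_mu {v : V} {u : V →+ K} (h0 : v ≠ 0) (hu : T.μ v u ≠ 0) : Bad T.β v :=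
  (T.hT v h0 u hu).1

theorem mu_ne {v x : V} {u : V →+ K} (h : T.μ v u x ≠ 0) : T.μ v u ≠ 0 := by
  intro h'
  apply h
  rw [h']; rfl

/-- for bad `v, v'` with the same indicator and `w = v + v'` bad, the indicator of `w` is that
of `v` -/
theorem lam_sum {v v' w : V} (hb : Bad T.β v) (hb' : Bad T.β v') (hw : w = v + v') (hw0 : w ≠ 0)
    (hl : ∀ x, lam K T.β v x = lam K T.β v' x) (x : V) : lam K T.β w x = lam K T.β v x := by
  obtain ⟨a, ha0, ha⟩ := F.val v hb
  obtain ⟨a', ha0', ha'⟩ := F.val v' hb'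
  have hne : a + a' ≠ 0 := by
    intro h
    have h2 : a = a' := by
      have h3 := T.hW a'
      rw [← h] at h3
      exact (add_right_cancel h3).symm
    subst h2
    apply hw0
    rw [hw, F.laminj a v v' ha ha' hl, T.hV]
  have hx : T.β w x = T.β v x + T.β v' x := by rw [hw, map_add]; rfl
  by_cases h1 : T.β v x = 0
  · rw [lam_of_eq h1]
    apply lam_of_eq
    have h2 : T.β v' x = 0 := by
      rw [← lam_eq_zero (K := K), ← hl x]
      exact lam_of_eq h1
    rw [hx, h1, h2, add_zero]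
  · rw [lam_of_ne h1]
    apply lam_of_ne
    have h2 : T.β v' x ≠ 0 := by
      intro h2
      apply h1
      rw [← lam_eq_zero (K := K), hl x]
      exact lam_of_eq h2
    rw [hx, (ha x).resolve_left h1, (ha' x).resolve_left h2]
    exact hne

theorem mem_blkH {c : W} {v : V} : v ∈ T.blkH c ↔ T.HTy v ∧ T.Val c v := by
  unfold Tor.blkH
  simp

theorem mem_blkL {l : V → K} {v : V} :
    v ∈ T.blkL l ↔ T.LTy v ∧ (fun x => lam K T.β v x) = l := by
  unfold Tor.blkL
  simp

/-- (i) for the noncommuting blocks -/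
theorem H_i {c : W} {v v' : V} {u : V →+ K} (hv : v ∈ T.blkH c) (hv' : v' ∉ T.blkH c)
    (h0 : v' ≠ 0) : T.μ v' u v = 0 := by
  by_contra hu
  rw [mem_blkH F] at hv
  have hb' : Bad T.β v' := bad_of_mu F h0 (mu_ne F hu)
  by_cases h : T.β v' v = 0
  · have hl := F.comm v' v u h0 hv.1.1 h hu
    have e := F.huniq v v' hv.1 hb' (fun x => (hl x).symm)
    apply hv'
    rw [mem_blkH F, e]
    exact hv
  · obtain ⟨h1, h2⟩ := F.noncomm v' v hb' hv.1.1 h
    have e : T.β v' v = c := F.valuniq v _ _ hv.1.1.1 h2 hv.2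
    apply hv'
    rw [mem_blkH F]
    refine ⟨⟨hb', v, hv.1.1, h⟩, ?_⟩
    rw [← e]
    exact h1

/-- (ii) for the noncommuting blocks -/
theorem H_ii {c : W} {w v : V} {u u' : V →+ K} (hw : w ∈ T.blkH c) (hv : v ∉ T.blkH c)
    (h1 : T.μ (w + v) u v ≠ 0) (h2 : T.μ v u' ≠ 0) : False := by
  have hv0 : v ≠ 0 := by
    rintro rfl
    rw [map_zero] at h1
    exact h1 rfl
  have hv0' : w + v ≠ 0 := by
    intro h
    rw [add_eq_zero_iff' T] at h
    apply hv
    rw [← h]
    exact hw
  have hb : Bad T.β v := bad_of_mu F hv0 h2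
  have hb' : Bad T.β (w + v) := bad_of_mu F hv0' (mu_ne F h1)
  have hws : w = v + (w + v) := by
    rw [add_comm w v, add_add_self T]
  rw [mem_blkH F] at hw
  by_cases h : T.β (w + v) v = 0
  · have hl := F.comm (w + v) v u hv0' hb h h1
    have hl2 := lam_sum F hb hb' hws hw.1.1.1 hl
    have e := F.huniq w v hw.1 hb (fun x => (hl2 x).symm)
    apply hv
    rw [mem_blkH F, e]
    exact hw
  · obtain ⟨h3, h4⟩ := F.noncomm (w + v) v hb' hb h
    have h5 : T.Val (T.β (w + v) v) w := by
      have := F.yadd _ _ _ h4 h3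
      rwa [← hws] at this
    have e : T.β (w + v) v = c := F.valuniq w _ _ hw.1.1.1 h5 hw.2
    apply hv
    rw [mem_blkH F]
    refine ⟨⟨hb, w + v, hb', ?_⟩, ?_⟩
    · rw [F.sym]
      exact h
    · rw [← e]
      exact h4

/-- the symmetry of the noncommuting blocks reduces to the pairs inside the block -/
theorem H_sym {c : W} (h : ∀ (u : V →+ K) v v', v ∈ T.blkH c → v' ∈ T.blkH c → v + v' ≠ 0 →
    v + v' ∉ T.blkH c → T.μ v' u v = 0) : SymOn T (T.blkH c) := by
  apply symOn_of
  intro u u' w hw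
  by_cases hwI : w ∈ T.blkH c
  · apply Sw_in
    intro u u' v hv h1 h2
    exact H_ii F hwI hv h1 h2
  · apply Sw_out
    intro u v hv
    have h0 : w + v ≠ 0 := by
      intro h0
      rw [add_eq_zero_iff' T] at h0
      rw [h0] at hwI
      exact hwI hv
    by_cases h1 : w + v ∈ T.blkH c
    · have e : v + (w + v) = w := by rw [add_comm w v, add_add_self T]
      exact h u v (w + v) hv h1 (by rw [e]; exact hw) (by rw [e]; exact hwI)
    · exact H_i F hv h1 h0

end

/-- job SYMH -/
theorem symh : S_SYMH.{u} := by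
  intro K _ _ V W V₀ _ _ _ _ T F c hns
  apply H_sym F
  intro u v v' hv hv' hw0 hwI
  rw [mem_blkH F] at hv hv' hwI
  have hwb : Bad T.β (v + v') := ⟨hw0, c, F.yadd c _ _ hv.2 hv'.2⟩
  have h1 : T.β (v + v') v = 0 := by
    by_contra h1
    exact hwI ⟨⟨hwb, v, hv.1.1, h1⟩, F.yadd c _ _ hv.2 hv'.2⟩
  have h2 : T.β v' v = 0 := by
    have e : T.β (v + v') v = T.β v v + T.β v' v := by rw [map_add]; rfl
    rw [e, F.alt, zero_add] at h1
    exact h1
  obtain ⟨hb', t, ht, hvt⟩ := hv'.1
  rw [F.plane v' t u hb' ht hvt v, lam_of_eq h2, mul_zero, add_zero]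
  have h3 : T.μ v' u v' = 0 := by
    by_contra h3
    exact hns ⟨v', hv'.1, hv'.2, u, h3⟩
  rw [h3, zero_mul]

/-- job SYMP -/
theorem symp : S_SYMP.{u} := by
  intro K _ _ V W V₀ _ _ _ _ T F c hp
  apply H_sym F
  intro u v v' hv hv' hw0 hwI
  exfalso
  apply hwI
  obtain ⟨y₁, y₂, hc0, hc, h1, h2, hall, -⟩ := hp
  rw [mem_blkH F] at hv hv' ⊢
  have hval := F.yadd c _ _ hv.2 hv'.2
  refine ⟨⟨⟨hw0, c, hval⟩, ?_⟩, hval⟩
  have hy1 : Bad T.β y₁ := by
    refine ⟨?_, c, h1⟩
    rintro rfl
    rw [map_zero] at hc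
    exact hc0 hc.symm
  have hy2 : Bad T.β y₂ := by
    refine ⟨?_, c, h2⟩
    rintro rfl
    rw [map_zero] at hc
    exact hc0 hc.symm
  rcases hall _ hval with h | h | h | h
  · exact absurd h hw0
  · rw [h]
    exact ⟨y₂, hy2, by rw [hc]; exact hc0⟩
  · rw [h]
    exact ⟨y₁, hy1, by rw [F.sym, hc]; exact hc0⟩
  · rw [h]
    refine ⟨y₂, hy2, ?_⟩
    have e : T.β (y₁ + y₂) y₂ = T.β y₁ y₂ + T.β y₂ y₂ := by rw [map_add]; rfl
    rw [e, F.alt, add_zero, hc]
    exact hc0

/-- job SYML -/
theorem syml : S_SYML.{u} := by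
  intro K _ _ V W V₀ _ _ _ _ T F l
  -- closure of the block under sums
  have hcl : ∀ v v', v ∈ T.blkL l → v' ∈ T.blkL l → v + v' ≠ 0 → v + v' ∈ T.blkL l := by
    intro v v' hv hv' h0
    rw [mem_blkL F] at hv hv' ⊢
    have hl : ∀ x, lam K T.β v x = lam K T.β v' x := by
      intro x
      rw [congrFun hv.2 x, congrFun hv'.2 x]
    have hs := lam_sum F hv.1.1 hv'.1.1 rfl h0 hl
    obtain ⟨a, ha0, ha⟩ := F.val v hv.1.1
    obtain ⟨a', ha0', ha'⟩ := F.val v' hv'.1.1
    have hx : ∀ x, T.β (v + v') x = T.β v x + T.β v' x := by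
      intro x
      rw [map_add]; rfl
    refine ⟨⟨⟨h0, a + a', ?_⟩, ?_⟩, ?_⟩
    · intro x
      by_cases h1 : T.β v x = 0
      · left
        have h2 : T.β v' x = 0 := by
          rw [← lam_eq_zero (K := K), ← hl x]
          exact lam_of_eq h1
        rw [hx, h1, h2, add_zero]
      · right
        have h2 : T.β v' x ≠ 0 := by
          intro h2
          apply h1
          rw [← lam_eq_zero (K := K), hl x]
          exact lam_of_eq h2
        rw [hx, (ha x).resolve_left h1, (ha' x).resolve_left h2]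
    · intro t ht
      rw [hx, hv.1.2 t ht, hv'.1.2 t ht, add_zero]
    · funext x
      rw [hs x]
      exact congrFun hv.2 x
  have hi : ∀ (u : V →+ K) v v', v ∈ T.blkL l → v' ∉ T.blkL l → v' ≠ 0 → T.μ v' u v = 0 := by
    intro u v v' hv hv' h0
    by_contra hu
    rw [mem_blkL F] at hv
    have hb' : Bad T.β v' := bad_of_mu F h0 (mu_ne F hu)
    have h : T.β v' v = 0 := by
      rw [F.sym]
      exact hv.1.2 v' hb'
    have hl := F.comm v' v u h0 hv.1.1 h hu
    apply hv'
    rw [mem_blkL F]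
    refine ⟨⟨hb', ?_⟩, ?_⟩
    · intro t ht
      by_contra hne
      have e := F.huniq v' v ⟨hb', t, ht, hne⟩ hv.1.1 hl
      rw [← e] at hne
      exact hne (hv.1.2 t ht)
    · funext x
      rw [← hl x]
      exact congrFun hv.2 x
  apply symOn_of
  intro u u' w hw
  by_cases hwI : w ∈ T.blkL l
  · apply Sw_in
    intro u u' v hv h1 h2
    have hv0 : v ≠ 0 := by
      rintro rfl
      rw [map_zero] at h1
      exact h1 rfl
    have hv0' : w + v ≠ 0 := by
      intro h
      rw [add_eq_zero_iff' T] at h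
      apply hv
      rw [← h]
      exact hwI
    have hb : Bad T.β v := bad_of_mu F hv0 h2
    have hb' : Bad T.β (w + v) := bad_of_mu F hv0' (mu_ne F h1)
    have hws : w = v + (w + v) := by
      rw [add_comm w v, add_add_self T]
    rw [mem_blkL F] at hwI
    have h : T.β (w + v) v = 0 := by
      have e : T.β (w + v) v = T.β w v + T.β v v := by rw [map_add]; rfl
      rw [e, F.alt, add_zero]
      exact hwI.1.2 v hb
    have hl := F.comm (w + v) v u hv0' hb h h1
    have hl2 := lam_sum F hb hb' hws hw hl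
    apply hv
    rw [mem_blkL F]
    refine ⟨⟨hb, ?_⟩, ?_⟩
    · intro t ht
      by_contra hne
      have e := F.huniq v w ⟨hb, t, ht, hne⟩ hwI.1.1 hl2
      rw [← e] at hne
      exact hne (hwI.1.2 t ht)
    · funext x
      rw [← hl2 x]
      exact congrFun hwI.2 x
  · apply Sw_out
    intro u v hv
    have h0 : w + v ≠ 0 := by
      intro h0
      rw [add_eq_zero_iff' T] at h0
      rw [h0] at hwI
      exact hwI hv
    by_cases h1 : w + v ∈ T.blkL l
    · exfalso
      apply hwI
      have e : v + (w + v) = w := by rw [add_comm w v, add_add_self T]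
      have := hcl v (w + v) hv h1 (by rw [e]; exact hw)
      rwa [e] at this
    · exact hi u v (w + v) hv h1 h0

end Pool.Agent.Q96.MI2
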