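import Pool.Agent.Q12.MI2.Stm3
import Pool.Agent.Q96.MI2.Sym

set_option autoImplicit false

namespace Pool.Agent.Q96.MI2

open Finset Q12.MI2

universe u

/-- job SYMA -/
theorem syma : S_SYMA.{u} := by
  intro K _ _ V W V₀ _ _ _ _ T
  apply symOn_of
  intro u u' w _
  apply Sw_in
  intro u u' v hv h1 _
  have hv0 : v = 0 := by
    by_contra h
    apply hv
    unfold Tor.nz
    simpa using h
  subst hv0
  rw [map_zero] at h1
  exact h1 rfl

end Pool.Agent.Q96.MI2
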